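import Pool.Agent.H74.G.R_seed8.W564.SC.Defs

/-!
# The closing lemma for products with a mixing map with periodic shadowing
-/

set_option autoImplicit false
set_option linter.unusedSectionVars false

open scoped Manifold ContDiff Topology
open Filter Set Metric

universe u v w

namespace Pool.Agent.W216.SC

open Pool.Agent.H718R2.G Pool.Agent.W564.SC

theorem exists_pos_le {ι : Type*} (s : Finset ι) (g : ι → ℝ) (h : ∀ i ∈ s, 0 < g i) :
    ∃ c : ℝ, 0 < c ∧ ∀ i ∈ s, c ≤ g i := by
  rcases s.eq_empty_or_nonempty with rfl | hs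
  · exact ⟨1, one_pos, fun i hi => absurd hi (Finset.notMem_empty i)⟩
  · obtain ⟨i, hi, hmin⟩ := Finset.exists_min_image s g hs
    exact ⟨g i, h i hi, hmin⟩

theorem nonwand_long {X : Type*} [MetricSpace X] (f : X ≃ₜ X) {x : X} (hw : NonWand f x)
    (hx : ∀ b : ℕ, 1 ≤ b → f^[b] x ≠ x) (ε : ℝ) (hε : 0 < ε) (M : ℕ) :
    ∃ (x1 : X) (m : ℕ), M ≤ m ∧ 1 ≤ m ∧ dist x1 x < ε ∧ dist (f^[m] x1) x < ε := by
  obtain ⟨c, hc, hcm⟩ := exists_pos_le (Finset.Ico 1 M) (fun i => dist (f^[i] x) x) (by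
    intro i hi
    rw [Finset.mem_Ico] at hi
    exact dist_pos.2 (hx i hi.1))
  have hW : {x' : X | dist x' x < min ε (c / 2) ∧
      ∀ i ∈ Finset.Ico 1 M, dist (f^[i] x') (f^[i] x) < c / 2} ∈ 𝓝 x := by
    have h1 : ∀ᶠ x' in 𝓝 x, dist x' x < min ε (c / 2) :=
      Metric.ball_mem_nhds x (lt_min hε (half_pos hc))
    have h2 : ∀ᶠ x' in 𝓝 x, ∀ i ∈ Finset.Ico 1 M, dist (f^[i] x') (f^[i] x) < c / 2 := by
      rw [Finset.eventually_all]
      intro i _
      have h3 : ContinuousAt (f^[i]) x := (f.continuous.iterate i).continuousAt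
      exact h3 (Metric.ball_mem_nhds _ (half_pos hc))
    exact h1.and h2
  obtain ⟨m, hm, x1, hx1, hx1'⟩ := hw _ hW
  refine ⟨x1, m, ?_, hm, hx1.1.trans_le (min_le_left _ _), hx1'.1.trans_le (min_le_left _ _)⟩
  by_contra hM
  have hmem : m ∈ Finset.Ico 1 M := by rw [Finset.mem_Ico]; omega
  have h1 := hcm m hmem
  have h2 := hx1.2 m hmem
  have h3 : dist (f^[m] x1) x < c / 2 := hx1'.1.trans_le (min_le_right _ _)
  have h4 := dist_triangle (f^[m] x) (f^[m] x1) x
  rw [dist_comm] at h2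
  linarith

section
variable {n : ℕ} {N : Type u} [TopologicalSpace N] [T2Space N] [ChartedSpace (V n) N]
  {X : Type v} {Y : Type w} [MetricSpace X] [CompactSpace X] [MetricSpace Y] [CompactSpace Y]
  {Θ : X × Y → N} {χ : OpenPartialHomeomorph N (V n)} {z : N}

theorem good_ball (hΘ : Topology.IsEmbedding Θ) (hχ : GoodChart n N χ z) {x : X} {y : Y}
    (hz : Θ (x, y) = z) {κ : ℝ} (hκ : 0 < κ) :
    ∃ η : ℝ, 0 < η ∧ ∀ p : X × Y, dist p (x, y) ≤ η → Θ p ∈ χ.source ∧ ‖χ (Θ p)‖ < κ := by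
  have h1 : ∀ᶠ p in 𝓝 (x, y), Θ p ∈ χ.source := by
    apply hΘ.continuous.continuousAt.eventually_mem
    rw [hz]
    exact χ.open_source.mem_nhds hχ.src
  have h2 : ContinuousAt (fun p => ‖χ (Θ p)‖) (x, y) := by
    apply ContinuousAt.norm
    apply ContinuousAt.comp (f := Θ) (g := χ)
    · rw [hz]; exact χ.continuousAt hχ.src
    · exact hΘ.continuous.continuousAt
  have h3 : ∀ᶠ p in 𝓝 (x, y), ‖χ (Θ p)‖ < κ := by
    apply h2.eventually_lt continuousAt_const
    rw [hz, hχ.zero, norm_zero]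
    exact hκ
  obtain ⟨ε, hε, h4⟩ := Metric.eventually_nhds_iff.1 (h1.and h3)
  exact ⟨ε / 2, half_pos hε, fun p hp => h4 (by linarith)⟩

/-- separation in the chart -/
theorem sep (hΘ : Topology.IsEmbedding Θ) (hχ : GoodChart n N χ z) {d : ℝ} (hd : 0 < d) :
    ∃ ρ : ℝ, 0 < ρ ∧ ∀ p q : X × Y, d ≤ dist q p → Θ p ∈ χ.source → ‖χ (Θ p)‖ < 1 / 2 →
      Θ q ∈ χ.source → ρ ≤ ‖χ (Θ q) - χ (Θ p)‖ := by
  set A : Set N := χ.symm '' closedBall (0 : V n) 1 with hA
  have hAc : IsCompact A := (isCompact_closedBall (0 : V n) 1).image_of_continuousOn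
    (χ.continuousOn_symm.mono hχ.ball)
  have hAs : A ⊆ χ.source := by
    rintro _ ⟨v, hv, rfl⟩
    exact χ.map_target (hχ.ball hv)
  set D : Set ((X × Y) × (X × Y)) := {t | d ≤ dist t.2 t.1 ∧ Θ t.1 ∈ A ∧ Θ t.2 ∈ A} with hD
  have hDc : IsClosed D := by
    apply IsClosed.inter
    · exact isClosed_le continuous_const (continuous_snd.dist continuous_fst)
    · apply IsClosed.inter
      · exact hAc.isClosed.preimage (hΘ.continuous.comp continuous_fst)
      · exact hAc.isClosed.preimage (hΘ.continuous.comp continuous_snd)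
  have hcont : ContinuousOn (fun t : (X × Y) × (X × Y) => ‖χ (Θ t.2) - χ (Θ t.1)‖) D := by
    apply ContinuousOn.norm
    apply ContinuousOn.sub
    · apply χ.continuousOn.comp (hΘ.continuous.comp continuous_snd).continuousOn
      intro t ht
      exact hAs ht.2.2
    · apply χ.continuousOn.comp (hΘ.continuous.comp continuous_fst).continuousOn
      intro t ht
      exact hAs ht.2.1
  obtain ⟨ρ, hρ, hmin⟩ := hDc.isCompact.exists_forall_le' hcont (a := 0) (by
    intro t ht
    apply norm_pos_iff.2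
    rw [sub_ne_zero]
    intro h
    have h1 := χ.injOn (hAs ht.2.2) (hAs ht.2.1) h
    have h2 := hΘ.injective h1
    have h3 := ht.1
    rw [h2, dist_self] at h3
    linarith)
  refine ⟨min ρ (1 / 2), lt_min hρ (by norm_num), fun p q hpq hp hp' hq => ?_⟩
  by_cases hq1 : ‖χ (Θ q)‖ ≤ 1
  · refine (min_le_left _ _).trans (hmin (p, q) ⟨hpq, ?_, ?_⟩)
    · exact ⟨χ (Θ p), by rw [mem_closedBall_zero_iff]; linarith, χ.left_inv hp⟩
    · exact ⟨χ (Θ q), by rw [mem_closedBall_zero_iff]; exact hq1, χ.left_inv hq⟩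
  · refine (min_le_right _ _).trans ?_
    have := norm_sub_norm_le (χ (Θ q)) (χ (Θ p))
    push Not at hq1
    linarith

end

theorem iter_Θ {n : ℕ} {N : Type u} [TopologicalSpace N] [ChartedSpace (V n) N] {r : ℕ∞}
    {F : DiffM n N r} {X : Type v} {Y : Type w} [TopologicalSpace X] [TopologicalSpace Y]
    {f : X ≃ₜ X} {h : Y ≃ₜ Y} {Θ : X × Y → N}
    (hF : ∀ x y, F (Θ (x, y)) = Θ (f x, h y)) (i : ℕ) (x : X) (y : Y) :
    F^[i] (Θ (x, y)) = Θ (f^[i] x, h^[i] y) := by
  induction i with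
  | zero => rfl
  | succ i ih =>
    rw [Function.iterate_succ_apply', ih, hF, Function.iterate_succ_apply',
      Function.iterate_succ_apply']

theorem a (h : S_CL.{u}) (h2 : S_GC.{u}) (h3 : S_FLEX.{w}) : S_A.{u, v, w} := by
  intro n N _ _ _ _ _ r hr F X Y _ _ _ _ _ f g hps hcm Θ hΘ hF x y hx U hU hFU
  obtain ⟨χ, hχ⟩ := h2 n N (Θ (x, y))
  have hfam : IsFam n N r (fun _ : ℝ => F) := by
    intro y
    exact F.contMDiff.contMDiffAt.comp _ contMDiffAt_snd
  obtain ⟨k, hk, κ, hκ, hcl⟩ := h n N r hr ℝ (fun _ => F) hfam χ (Θ (x, y)) hχ U hU hFU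
  obtain ⟨η, hη, hball⟩ := good_ball hΘ hχ rfl (lt_min hκ (half_pos one_pos) :
    (0 : ℝ) < min κ (1 / 2))
  obtain ⟨ρ0, R, hρ0, hflex⟩ := h3 Y g hps hcm y η hη
  have hmem : ∀ (x' : X) (y' : Y), dist x' x ≤ η → dist y' y ≤ η → Θ (x', y') ∈ χ.source ∧
      ‖χ (Θ (x', y'))‖ < min κ (1 / 2) := by
    intro x' y' h1 h2
    apply hball
    rw [Prod.dist_eq]
    exact max_le h1 h2
  by_cases hper : ∃ b : ℕ, 1 ≤ b ∧ f^[b] x = x
  · -- periodic
    obtain ⟨b, hb, hbx⟩ := hper
    set m := b * (2 * R + 1) with hm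
    have hm1 : 1 ≤ m := Nat.mul_pos hb (by omega)
    have hm2 : 2 * R ≤ m := by
      have : 1 * (2 * R + 1) ≤ b * (2 * R + 1) := Nat.mul_le_mul_right _ hb
      omega
    obtain ⟨y1, hy1, hy1', _⟩ := hflex m hm2
    have hxm : f^[m] x = x := by
      have h4 : Function.IsPeriodicPt f b x := hbx
      exact h4.mul_const (2 * R + 1)
    set z1 := Θ (x, y1) with hz1
    have hz1m : F^[m] z1 = z1 := by rw [hz1, iter_Θ hF, hxm, hy1']
    obtain ⟨hs, hn⟩ := hmem x y1 (by rw [dist_self]; exact hη.le) hy1.le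
    have hp : z1 ∈ Function.periodicPts F := Function.mk_mem_periodicPts (n := m) hm1 hz1m
    have hmp := Function.minimalPeriod_pos_of_mem_periodicPts hp
    set mp := Function.minimalPeriod F z1 with hmpdef
    classical
    obtain ⟨c, hc, hcm'⟩ := exists_pos_le (Finset.Ico 1 mp)
      (fun i => if F^[i] z1 ∈ χ.source then ‖χ (F^[i] z1) - χ z1‖ else 1) (by
      intro i hi
      rw [Finset.mem_Ico] at hi
      split_ifs with hsrc
      · apply norm_pos_iff.2
        rw [sub_ne_zero]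
        intro h5
        have h6 := χ.injOn hsrc hs h5
        exact Function.not_isPeriodicPt_of_pos_of_lt_minimalPeriod (by omega) hi.2 h6
      · exact one_pos)
    refine hcl 0 z1 (min (c / 2) (κ / 2)) mp (by rw [norm_zero]; exact hκ) hs
      (hn.trans_le (min_le_left _ _)) (lt_min (half_pos hc) (half_pos hκ))
      ((min_le_right _ _).trans_lt (half_lt_self hκ)) hmp ?_ ?_ ?_
    · show F^[mp] z1 ∈ χ.source
      rw [hmpdef, Function.iterate_minimalPeriod]
      exact hs
    · show ‖χ (F^[mp] z1) - χ z1‖ < _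
      rw [hmpdef, Function.iterate_minimalPeriod, sub_self, norm_zero]
      have : 0 < min (c / 2) (κ / 2) := lt_min (half_pos hc) (half_pos hκ)
      positivity
    · intro i hi0 hi1 hsrc
      have h5 := hcm' i (by rw [Finset.mem_Ico]; omega)
      have hsrc' : F^[i] z1 ∈ χ.source := hsrc
      rw [if_pos hsrc'] at h5
      have h6 : min (c / 2) (κ / 2) ≤ c / 2 := min_le_left _ _
      show 2 * min (c / 2) (κ / 2) ≤ ‖χ (F^[i] z1) - χ z1‖
      linarith
  · -- not periodic
    push Not at hper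
    have hsymm : ∀ i : ℕ, 1 ≤ i → f.symm^[i] x ≠ x := by
      intro i hi h5
      apply hper i hi
      have h6 : f^[i] (f.symm^[i] x) = x := (f.toEquiv.right_inv.iterate i) x
      conv_lhs => rw [← h5]
      exact h6
    obtain ⟨c1, hc1, hc1m⟩ := exists_pos_le (Finset.Ico 1 R) (fun i => dist (f^[i] x) x) (by
      intro i hi
      rw [Finset.mem_Ico] at hi
      exact dist_pos.2 (hper i hi.1))
    obtain ⟨c2, hc2, hc2m⟩ := exists_pos_le (Finset.Ico 1 R) (fun i => dist (f.symm^[i] x) x) (by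
      intro i hi
      rw [Finset.mem_Ico] at hi
      exact dist_pos.2 (hsymm i hi.1))
    set c := min c1 c2 with hc
    have hc0 : 0 < c := lt_min hc1 hc2
    have hc4 : 0 < c / 4 := by linarith
    have hev : ∀ᶠ x' in 𝓝 x, ∀ i ∈ Finset.Ico 1 R, dist (f^[i] x') (f^[i] x) < c / 4 ∧
        dist (f.symm^[i] x') (f.symm^[i] x) < c / 4 := by
      rw [Finset.eventually_all]
      intro i _
      have h5 : ContinuousAt (f^[i]) x := (f.continuous.iterate i).continuousAt
      have h6 : ContinuousAt (f.symm^[i]) x := (f.symm.continuous.iterate i).continuousAt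
      exact (h5.eventually_mem (Metric.ball_mem_nhds _ hc4)).and
        (h6.eventually_mem (Metric.ball_mem_nhds _ hc4))
    obtain ⟨ε0, hε0, hε0'⟩ := Metric.eventually_nhds_iff.1 hev
    set d0 := min (c / 2) ρ0 with hd0
    have hd0' : 0 < d0 := lt_min (half_pos hc0) hρ0
    obtain ⟨ρ1, hρ1, hsep⟩ := sep (X := X) (Y := Y) hΘ hχ hd0'
    set ρ := min (ρ1 / 2) (κ / 2) with hρ
    have hρ' : 0 < ρ := lt_min (half_pos hρ1) (half_pos hκ)
    have hρκ : ρ < κ := (min_le_right _ _).trans_lt (half_lt_self hκ)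
    -- uniform continuity
    have hBc : IsCompact (closedBall ((x, y) : X × Y) η) :=
      Metric.isClosed_closedBall.isCompact
    have hco : ContinuousOn (fun p : X × Y => χ (Θ p)) (closedBall ((x, y) : X × Y) η) := by
      apply χ.continuousOn.comp hΘ.continuous.continuousOn
      intro p hp
      exact (hball p hp).1
    have huc := hBc.uniformContinuousOn_of_continuous hco
    rw [Metric.uniformContinuousOn_iff] at huc
    have hκρ : 0 < κ * ρ ^ k := by positivity
    obtain ⟨δ3, hδ3, huc'⟩ := huc (κ * ρ ^ k) hκρ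
    set ε := min (min η ε0) (min (c / 4) (δ3 / 2)) with hε
    have hεpos : 0 < ε := lt_min (lt_min hη hε0) (lt_min hc4 (half_pos hδ3))
    have hεη : ε ≤ η := (min_le_left _ _).trans (min_le_left _ _)
    have hεε0 : ε ≤ ε0 := (min_le_left _ _).trans (min_le_right _ _)
    have hεc : ε ≤ c / 4 := (min_le_right _ _).trans (min_le_left _ _)
    have hεδ : ε ≤ δ3 / 2 := (min_le_right _ _).trans (min_le_right _ _)
    obtain ⟨x1, m, hmR, hm1, hx1, hx1m⟩ := nonwand_long f hx hper ε hεpos (2 * R)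
    obtain ⟨y1, hy1, hy1m, hy1r⟩ := hflex m hmR
    obtain ⟨hs, hn⟩ := hmem x1 y1 (hx1.le.trans hεη) hy1.le
    obtain ⟨hs', hn'⟩ := hmem (f^[m] x1) y1 (hx1m.le.trans hεη) hy1.le
    have hit : ∀ i, F^[i] (Θ (x1, y1)) = Θ (f^[i] x1, g^[i] y1) := fun i => iter_Θ hF i x1 y1
    have hfar : ∀ i, 0 < i → i < m → d0 ≤ dist ((f^[i] x1, g^[i] y1) : X × Y) (x1, y1) := by
      intro i hi0 him
      rw [Prod.dist_eq]
      by_cases hiR : i < R
      · refine le_trans (min_le_left _ _) (le_trans ?_ (le_max_left _ _))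
        have hmemi : i ∈ Finset.Ico 1 R := by rw [Finset.mem_Ico]; omega
        have h5 := hc1m i hmemi
        have h6 := (hε0' (hx1.trans_le hεε0) i hmemi).1
        have h7 : c ≤ c1 := min_le_left _ _
        have h8 := dist_triangle4 (f^[i] x) (f^[i] x1) x1 x
        rw [dist_comm (f^[i] x) (f^[i] x1)] at h8
        show c / 2 ≤ dist (f^[i] x1) x1
        linarith
      · by_cases hiR2 : m < i + R
        · refine le_trans (min_le_left _ _) (le_trans ?_ (le_max_left _ _))
          have hmemi : m - i ∈ Finset.Ico 1 R := by rw [Finset.mem_Ico]; omega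
          have h5 := hc2m (m - i) hmemi
          have h6 := (hε0' (hx1m.trans_le hεε0) (m - i) hmemi).2
          have h7 : c ≤ c2 := min_le_right _ _
          have h9 : f.symm^[m - i] (f^[m] x1) = f^[i] x1 := by
            have h10 : m = (m - i) + i := by omega
            have h11 : f^[m] x1 = f^[m - i] (f^[i] x1) := by
              conv_lhs => rw [h10]
              exact Function.iterate_add_apply _ _ _ _
            rw [h11]
            exact (f.toEquiv.left_inv.iterate (m - i)) _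
          rw [h9] at h6
          have h8 := dist_triangle4 (f.symm^[m - i] x) (f^[i] x1) x1 x
          rw [dist_comm (f.symm^[m - i] x) (f^[i] x1)] at h8
          show c / 2 ≤ dist (f^[i] x1) x1
          linarith
        · refine le_trans (min_le_right _ _) (le_trans ?_ (le_max_right _ _))
          exact hy1r i (by omega) (by omega)
    refine hcl 0 (Θ (x1, y1)) ρ m (by rw [norm_zero]; exact hκ) hs
      (hn.trans_le (min_le_left _ _)) hρ' hρκ hm1 ?_ ?_ ?_
    · show F^[m] (Θ (x1, y1)) ∈ χ.source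
      rw [hit, hy1m]
      exact hs'
    · show ‖χ (F^[m] (Θ (x1, y1))) - χ (Θ (x1, y1))‖ < _
      rw [hit, hy1m, ← dist_eq_norm]
      apply huc' (f^[m] x1, y1) _ (x1, y1)
      · rw [mem_closedBall, Prod.dist_eq]
        exact max_le (hx1.le.trans hεη) hy1.le
      · rw [Prod.dist_eq]
        simp only [dist_self]
        have h5 := dist_triangle_right (f^[m] x1) x1 x
        apply max_lt _ hδ3
        linarith
      · rw [mem_closedBall, Prod.dist_eq]
        exact max_le (hx1m.le.trans hεη) hy1.le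
    · intro i hi0 him hsrc
      have hsrc' : F^[i] (Θ (x1, y1)) ∈ χ.source := hsrc
      show 2 * ρ ≤ ‖χ (F^[i] (Θ (x1, y1))) - χ (Θ (x1, y1))‖
      rw [hit] at hsrc' ⊢
      have h5 := hsep (x1, y1) _ (hfar i hi0 him) hs (hn.trans_le (min_le_right _ _)) hsrc'
      have h6 : ρ ≤ ρ1 / 2 := min_le_left _ _
      linarith

end Pool.Agent.W216.SC
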